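import Pool.Agent.Q173.KS.Stm

set_option autoImplicit false

namespace Pool.Agent.Q186.KS

open Finset Pool.Agent.Q173.KS

theorem starL_length {α : Type} (l : α) (xs : List α) : (starL l xs).length = xs.length := by
  induction xs with
  | nil => rfl
  | cons x xs ih => simp [Pool.Agent.Q173.KS.starL, ih]

theorem starL_mem {α : Type} (l : α) (xs : List α) :
    ∀ o ∈ starL l xs, o.a = l ∧ o.b ∈ xs ∧ 0 ≤ o.p ∧ o.p ≤ 1 := by
  induction xs with
  | nil => intro o ho; simp [Pool.Agent.Q173.KS.starL] at ho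
  | cons x xs ih =>
    intro o ho
    rw [Pool.Agent.Q173.KS.starL, List.mem_append, List.mem_singleton] at ho
    rcases ho with ho | rfl
    · obtain ⟨h1, h2, h3⟩ := ih o ho
      exact ⟨h1, List.mem_cons_of_mem _ h2, h3⟩
    · refine ⟨rfl, by simp, ?_, ?_⟩
      · show (0 : ℝ) ≤ 1 / ((xs.length : ℝ) + 2)
        positivity
      · show 1 / ((xs.length : ℝ) + 2) ≤ 1
        rw [div_le_one (by positivity)]
        have : (0 : ℝ) ≤ xs.length := Nat.cast_nonneg _
        linarith

theorem ins (hINS1 : S_INS1) : S_INS := by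
  classical
  intro α _ X Z hXZ
  induction Z using Finset.induction_on with
  | empty =>
    refine ⟨[], fun o ho => by simp at ho, by simp, fun o ho => by simp at ho, ?_⟩
    intro k Φ h
    have : ES [] Φ = Φ := funext fun S => ES_nil Φ S
    rw [this, Finset.union_empty]
    exact h
  | insert z Z hz ih =>
    rw [Finset.disjoint_insert_right] at hXZ
    obtain ⟨ℓ, hok, hlen, hmem, hinv⟩ := ih hXZ.2
    have hzX : z ∉ X ∪ Z := by
      rw [Finset.mem_union, not_or]
      exact ⟨hXZ.1, hz⟩
    have hu : X ∪ insert z Z = insert z (X ∪ Z) := Finset.union_insert z X Z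
    refine ⟨starL z (X ∪ Z).toList ++ ℓ, ?_, ?_, ?_, ?_⟩
    · refine Ok.append ?_ hok
      intro o ho
      obtain ⟨h1, h2, h3⟩ := starL_mem _ _ o ho
      refine ⟨?_, h3⟩
      rw [h1]
      rintro rfl
      exact hzX (Finset.mem_toList.1 h2)
    · rw [List.length_append, starL_length, Finset.length_toList, hu,
        Finset.card_insert_of_notMem hzX, Finset.card_insert_of_notMem hz]
      nlinarith
    · intro o ho
      rw [hu]
      rcases List.mem_append.1 ho with ho | ho
      · obtain ⟨h1, h2, h3⟩ := starL_mem _ _ o ho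
        rw [h1]
        exact ⟨Finset.mem_insert_self _ _, Finset.mem_insert_of_mem (Finset.mem_toList.1 h2)⟩
      · exact ⟨Finset.mem_insert_of_mem (hmem o ho).1, Finset.mem_insert_of_mem (hmem o ho).2⟩
    · intro k Φ h
      have h1 := hINS1 α k (X ∪ Z) z (ES ℓ Φ) hzX (hinv k Φ h)
      have h2 : ES (starL z (X ∪ Z).toList ++ ℓ) Φ = ES (starL z (X ∪ Z).toList) (ES ℓ Φ) :=
        funext fun S => ES_append _ _ Φ S
      rw [hu, h2]
      exact h1

end Pool.Agent.Q186.KS
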