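import Pool.Agent.Q173.KS.Stm

set_option autoImplicit false

namespace Pool.Agent.Q186.KS

open Finset Filter Pool.Agent.Q173.KS

theorem uu_abs_le (N : ℕ) : ∀ j : ℕ, j ≤ N → |uu N j| ≤ 1
  | 0, _ => by simp [uu]
  | 1, _ => by simp [uu]
  | (j + 2), h => by
    have ih := uu_abs_le N j (by omega)
    have hN : (j : ℝ) + 2 ≤ N := by exact_mod_cast h
    have hj : (0 : ℝ) ≤ j := Nat.cast_nonneg j
    rw [uu, abs_mul, abs_neg, abs_of_nonneg (div_nonneg (by linarith) (by linarith))]
    have h1 : ((j : ℝ) + 1) / (2 * N - j - 1) ≤ 1 := by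
      rw [div_le_one (by linarith)]
      linarith
    calc ((j : ℝ) + 1) / (2 * N - j - 1) * |uu N j| ≤ 1 * 1 :=
          mul_le_mul h1 ih (abs_nonneg _) zero_le_one
      _ = 1 := one_mul 1

/-- the algebraic estimate -/
theorem coeff_bound (k : ℕ) (D W : PowerSeries ℝ) (n R : ℝ) (hn : 1 ≤ n) (hR : 0 ≤ R)
    (hW0 : PowerSeries.coeff 0 W = 1)
    (hW : ∀ m ≤ k, |PowerSeries.coeff m W| ≤ 2 * n ^ m)
    (hDW : ∀ m ≤ k, |PowerSeries.coeff m (D * W)| ≤ R) :
    ∀ j ≤ k, |PowerSeries.coeff j D| ≤ R * (3 * n) ^ j := by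
  intro j
  induction j using Nat.strong_induction_on with
  | _ j ih =>
    intro hj
    have h1 : PowerSeries.coeff j (D * W) = ∑ i ∈ range (j + 1),
        PowerSeries.coeff i D * PowerSeries.coeff (j - i) W := by
      rw [PowerSeries.coeff_mul,
        Finset.Nat.sum_antidiagonal_eq_sum_range_succ
          (fun a b => PowerSeries.coeff a D * PowerSeries.coeff b W) j]
    rw [Finset.sum_range_succ, Nat.sub_self, hW0, mul_one] at h1
    have h2 : PowerSeries.coeff j D = PowerSeries.coeff j (D * W) - ∑ i ∈ range j,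
        PowerSeries.coeff i D * PowerSeries.coeff (j - i) W := by
      rw [h1]; ring
    have h3 : |∑ i ∈ range j, PowerSeries.coeff i D * PowerSeries.coeff (j - i) W| ≤
        ∑ i ∈ range j, 2 * R * n ^ j * 3 ^ i := by
      refine (Finset.abs_sum_le_sum_abs _ _).trans (Finset.sum_le_sum ?_)
      intro i hi
      rw [Finset.mem_range] at hi
      rw [abs_mul]
      have h4 := ih i hi (by omega)
      have h5 := hW (j - i) (by omega)
      calc |PowerSeries.coeff i D| * |PowerSeries.coeff (j - i) W|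
          ≤ (R * (3 * n) ^ i) * (2 * n ^ (j - i)) :=
            mul_le_mul h4 h5 (abs_nonneg _) (by positivity)
        _ = 2 * R * (n ^ i * n ^ (j - i)) * 3 ^ i := by rw [mul_pow]; ring
        _ = 2 * R * n ^ j * 3 ^ i := by rw [← pow_add, Nat.add_sub_cancel' hi.le]
    have h6 : ∑ i ∈ range j, 2 * R * n ^ j * (3 : ℝ) ^ i = R * n ^ j * (3 ^ j - 1) := by
      rw [← Finset.mul_sum, geom_sum_eq (by norm_num)]
      ring
    rw [h6] at h3
    rw [h2]
    have h7 := hDW j hj
    have h8 : 1 ≤ n ^ j := one_le_pow₀ hn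
    calc |PowerSeries.coeff j (D * W) - ∑ i ∈ range j,
          PowerSeries.coeff i D * PowerSeries.coeff (j - i) W|
        ≤ |PowerSeries.coeff j (D * W)| + |∑ i ∈ range j,
          PowerSeries.coeff i D * PowerSeries.coeff (j - i) W| := abs_sub _ _
      _ ≤ R + R * n ^ j * (3 ^ j - 1) := add_le_add h7 h3
      _ ≤ R * n ^ j + R * n ^ j * (3 ^ j - 1) := by
          gcongr
          exact le_mul_of_one_le_right hR h8
      _ = R * (3 * n) ^ j := by rw [mul_pow]; ring

theorem pert (hLIM : S_LIM) : S_PERT := by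
  intro k hk η hη
  -- bound for the limits
  set M : ℝ := ∑ i ∈ range (k + 1), |PowerSeries.coeff i (AA k)| + 1 with hM
  have hM1 : 1 ≤ M := by
    have : 0 ≤ ∑ i ∈ range (k + 1), |PowerSeries.coeff i (AA k)| :=
      Finset.sum_nonneg fun _ _ => abs_nonneg _
    linarith
  have hMi : ∀ i ≤ k, |PowerSeries.coeff i (AA k)| ≤ M - 1 := by
    intro i hi
    have := Finset.single_le_sum (f := fun i => |PowerSeries.coeff i (AA k)|)
      (fun _ _ => abs_nonneg _) (Finset.mem_range.2 (Nat.lt_succ_of_le hi))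
    linarith
  -- closeness of the unperturbed quotients
  have hlim : ∀ᶠ N : ℕ in atTop, ∀ j ∈ range (k + 1),
      |PowerSeries.coeff j (GG (N + k) * (GG N)⁻¹) - PowerSeries.coeff j (AA k)| < min 1 (η / 2) := by
    rw [Filter.eventually_all_finset]
    intro j hj
    have h := hLIM k hk j (Nat.lt_succ_iff.1 (Finset.mem_range.1 hj))
    have := (Metric.tendsto_nhds.1 h) (min 1 (η / 2)) (lt_min one_pos (by linarith))
    simpa only [Real.dist_eq] using this
  obtain ⟨N₁, hN₁⟩ := Filter.eventually_atTop.1 hlim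
  set c : ℝ := (k : ℝ) + k ^ 2 with hc
  have hc0 : 0 < c := by
    have : (1 : ℝ) ≤ k := by exact_mod_cast hk
    positivity
  set B : ℝ := ((k : ℝ) + 1) * M * 3 ^ k * (2 * c ^ (3 * k + 3)) with hB
  have hB0 : 0 ≤ B := by positivity
  obtain ⟨N₂, hN₂⟩ := exists_nat_ge (2 * B / η)
  obtain ⟨N₃, hN₃⟩ := exists_nat_ge (2 * c)
  refine ⟨max (max N₁ N₂) (max N₃ (k + 1)), fun N hN w hw0 hw => ?_⟩
  have hNN₁ : N₁ ≤ N := (le_max_left _ _).trans ((le_max_left _ _).trans hN)
  have hNN₂ : N₂ ≤ N := (le_max_right _ _).trans ((le_max_left _ _).trans hN)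
  have hNN₃ : N₃ ≤ N := (le_max_left _ _).trans ((le_max_right _ _).trans hN)
  have hNk : k + 1 ≤ N := (le_max_right _ _).trans ((le_max_right _ _).trans hN)
  have hn1 : (1 : ℝ) ≤ N := by exact_mod_cast (show 1 ≤ N by omega)
  have hn0 : (0 : ℝ) < N := by linarith
  have hNB : 2 * B / η ≤ N := hN₂.trans (by exact_mod_cast hNN₂)
  have hNc : 2 * c ≤ N := hN₃.trans (by exact_mod_cast hNN₃)
  set ε : ℝ := 2 * (c / N) ^ (3 * k + 3) with hε
  have hε0 : 0 ≤ ε := by positivity
  have hcN : c / N ≤ 1 / 2 := by rw [div_le_iff₀ hn0]; linarith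
  have hcN0 : 0 ≤ c / N := by positivity
  have hε1 : ε ≤ 1 := by
    have h1 : (c / N) ^ (3 * k + 3) ≤ (c / N) ^ 1 :=
      pow_le_pow_of_le_one hcN0 (by linarith) (by omega)
    rw [pow_one] at h1
    linarith
  set W : PowerSeries ℝ := PowerSeries.mk fun j => (N.choose j : ℝ) * w j with hWd
  have hWc : ∀ j, PowerSeries.coeff j W = (N.choose j : ℝ) * w j := fun j =>
    PowerSeries.coeff_mk j _
  have hGc : ∀ (n j : ℕ), PowerSeries.coeff j (GG n) = (n.choose j : ℝ) * uu n j := fun n j =>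
    PowerSeries.coeff_mk j _
  have hW0 : PowerSeries.coeff 0 W = 1 := by rw [hWc, hw0]; simp
  have hG0 : ∀ n, PowerSeries.coeff 0 (GG n) = 1 := fun n => by rw [hGc]; simp [uu]
  have hWne : PowerSeries.constantCoeff W ≠ 0 := by
    rw [← PowerSeries.coeff_zero_eq_constantCoeff_apply, hW0]; exact one_ne_zero
  have hGne : ∀ n, PowerSeries.constantCoeff (GG n) ≠ 0 := fun n => by
    rw [← PowerSeries.coeff_zero_eq_constantCoeff_apply, hG0]; exact one_ne_zero
  set E : PowerSeries ℝ := GG (N + k) * W⁻¹ with hE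
  set E' : PowerSeries ℝ := GG (N + k) * (GG N)⁻¹ with hE'
  have hEW : E * W = GG (N + k) := by
    rw [hE, mul_assoc, PowerSeries.inv_mul_cancel _ hWne, mul_one]
  have hEG : E' * GG N = GG (N + k) := by
    rw [hE', mul_assoc, PowerSeries.inv_mul_cancel _ (hGne N), mul_one]
  have hchoose : ∀ m ≤ k, ((N.choose m : ℕ) : ℝ) ≤ (N : ℝ) ^ m := fun m _ => by
    exact_mod_cast Nat.choose_le_pow N m
  have hE'b : ∀ i ≤ k, |PowerSeries.coeff i E'| ≤ M := by
    intro i hi
    have h1 := hN₁ N hNN₁ i (Finset.mem_range.2 (by omega))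
    have h2 := lt_of_lt_of_le h1 (min_le_left _ _)
    have h3 := hMi i hi
    have h4 : |PowerSeries.coeff i E'| ≤ |PowerSeries.coeff i E' - PowerSeries.coeff i (AA k)| +
        |PowerSeries.coeff i (AA k)| := by
      have := abs_add_le (PowerSeries.coeff i E' - PowerSeries.coeff i (AA k))
        (PowerSeries.coeff i (AA k))
      simpa using this
    linarith
  have hdiff : (E - E') * W = E' * (GG N - W) := by
    rw [sub_mul, mul_sub, hEW, hEG]
  have hR : ∀ m ≤ k, |PowerSeries.coeff m ((E - E') * W)| ≤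
      ((k : ℝ) + 1) * M * ((N : ℝ) ^ k * ε) := by
    intro m hm
    rw [hdiff, PowerSeries.coeff_mul,
      Finset.Nat.sum_antidiagonal_eq_sum_range_succ
        (fun a b => PowerSeries.coeff a E' * PowerSeries.coeff b (GG N - W)) m]
    refine (Finset.abs_sum_le_sum_abs _ _).trans ?_
    have h1 : ∀ i ∈ range m.succ, |PowerSeries.coeff i E' * PowerSeries.coeff (m - i) (GG N - W)|
        ≤ M * ((N : ℝ) ^ k * ε) := by
      intro i hi
      rw [Finset.mem_range] at hi
      rw [abs_mul]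
      refine mul_le_mul (hE'b i (by omega)) ?_ (abs_nonneg _) (by linarith)
      rw [map_sub, hGc, hWc, ← mul_sub, abs_mul, abs_of_nonneg (Nat.cast_nonneg _)]
      have h2 := hw (m - i) (by omega)
      rw [abs_sub_comm] at h2
      have h3 : (N : ℝ) ^ (m - i) ≤ (N : ℝ) ^ k := pow_le_pow_right₀ hn1 (by omega)
      exact mul_le_mul ((hchoose _ (by omega)).trans h3) h2 (abs_nonneg _) (by positivity)
    refine (Finset.sum_le_sum h1).trans ?_
    rw [Finset.sum_const, Finset.card_range, nsmul_eq_mul, ← mul_assoc]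
    have h4 : ((m.succ : ℕ) : ℝ) ≤ (k : ℝ) + 1 := by
      push_cast
      have : (m : ℝ) ≤ k := by exact_mod_cast hm
      linarith
    gcongr
  have hWb : ∀ m ≤ k, |PowerSeries.coeff m W| ≤ 2 * (N : ℝ) ^ m := by
    intro m hm
    rw [hWc, abs_mul, abs_of_nonneg (Nat.cast_nonneg _), mul_comm]
    have h1 := hw m hm
    have h2 := uu_abs_le N m (by omega)
    have h3 : |w m| ≤ 2 := by
      have h4 : |w m| ≤ |w m - uu N m| + |uu N m| := by
        have := abs_add_le (w m - uu N m) (uu N m)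
        simpa using this
      have h5 : |w m - uu N m| ≤ ε := h1
      linarith
    exact mul_le_mul h3 (hchoose m hm) (Nat.cast_nonneg _) (by norm_num)
  have hD := coeff_bound k (E - E') W N (((k : ℝ) + 1) * M * ((N : ℝ) ^ k * ε)) hn1
    (by positivity) hW0 hWb hR
  refine ⟨fun j => PowerSeries.coeff j E, ?_, ?_, ?_⟩
  · show PowerSeries.coeff 0 E = 1
    have h1 : PowerSeries.constantCoeff E * PowerSeries.constantCoeff W =
        PowerSeries.constantCoeff (GG (N + k)) := by rw [← map_mul, hEW]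
    rw [← PowerSeries.coeff_zero_eq_constantCoeff_apply,
      ← PowerSeries.coeff_zero_eq_constantCoeff_apply,
      ← PowerSeries.coeff_zero_eq_constantCoeff_apply, hW0, hG0, mul_one] at h1
    exact h1
  · intro j hj
    have h1 := hN₁ N hNN₁ j (Finset.mem_range.2 (by omega))
    have h2 := lt_of_lt_of_le h1 (min_le_right _ _)
    have h3 := hD j hj
    rw [map_sub] at h3
    have h4 : ((k : ℝ) + 1) * M * ((N : ℝ) ^ k * ε) * (3 * N) ^ j ≤ η / 2 := by
      have h5 : (3 * (N : ℝ)) ^ j ≤ (3 * N) ^ k := pow_le_pow_right₀ (by linarith) hj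
      have h6 : ((k : ℝ) + 1) * M * ((N : ℝ) ^ k * ε) * (3 * N) ^ j ≤
          ((k : ℝ) + 1) * M * ((N : ℝ) ^ k * ε) * (3 * N) ^ k := by gcongr
      have h7 : ((k : ℝ) + 1) * M * ((N : ℝ) ^ k * ε) * (3 * N) ^ k = B / N ^ (k + 3) := by
        rw [hε, hB, div_pow, mul_pow, eq_div_iff (by positivity)]
        have h8 : (N : ℝ) ^ (3 * k + 3) = N ^ k * N ^ k * N ^ (k + 3) := by
          rw [← pow_add, ← pow_add]; congr 1; ring
        rw [h8]
        field_simp
      have h9 : B / (N : ℝ) ^ (k + 3) ≤ B / N := by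
        apply div_le_div_of_nonneg_left hB0 hn0
        calc (N : ℝ) = N ^ 1 := (pow_one _).symm
          _ ≤ N ^ (k + 3) := pow_le_pow_right₀ hn1 (by omega)
      have h10 : B / (N : ℝ) ≤ η / 2 := by
        rw [div_le_iff₀ hn0]
        rw [div_le_iff₀ hη] at hNB
        linarith
      linarith
    show |PowerSeries.coeff j E - PowerSeries.coeff j (AA k)| ≤ η
    have h11 : PowerSeries.coeff j E - PowerSeries.coeff j (AA k) =
      (PowerSeries.coeff j E - PowerSeries.coeff j E') +
        (PowerSeries.coeff j E' - PowerSeries.coeff j (AA k)) := by ring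
    rw [h11]
    refine (abs_add_le _ _).trans ?_
    linarith
  · intro j hj
    have h1 : PowerSeries.coeff j (E * W) = PowerSeries.coeff j (GG (N + k)) := by rw [hEW]
    rw [hGc, PowerSeries.coeff_mul, Finset.Nat.sum_antidiagonal_eq_sum_range_succ
        (fun a b => PowerSeries.coeff a E * PowerSeries.coeff b W) j] at h1
    rw [← h1]
    refine Finset.sum_congr rfl fun i _ => ?_
    rw [hWc, mul_assoc]

end Pool.Agent.Q186.KS
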